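import Pool.Agent.H25.MF.Targets

/-!
# Board `mf_modules`, row `ME`: the transform of the Mertens function
-/

set_option autoImplicit false

open Complex MeasureTheory Filter Topology Pool.Agent.H25.MF

namespace Pool.Agent.H41.MF

theorem measurable_M : Measurable M := by
  have h : M = (fun n : ℕ => ∑ k ∈ Finset.Icc 1 n,
      ((ArithmeticFunction.moebius k : ℤ) : ℝ)) ∘ (fun x : ℝ => ⌊x⌋₊) := rfl
  rw [h]
  exact (measurable_of_countable _).comp Nat.measurable_floor

theorem abs_M_le (x : ℝ) (hx : 0 ≤ x) : |M x| ≤ x := by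
  unfold M
  calc |∑ n ∈ Finset.Icc 1 ⌊x⌋₊, ((ArithmeticFunction.moebius n : ℤ) : ℝ)|
      ≤ ∑ n ∈ Finset.Icc 1 ⌊x⌋₊, |((ArithmeticFunction.moebius n : ℤ) : ℝ)| :=
        Finset.abs_sum_le_sum_abs _ _
    _ ≤ ∑ _n ∈ Finset.Icc 1 ⌊x⌋₊, (1 : ℝ) := by
        refine Finset.sum_le_sum fun n _ => ?_
        have := ArithmeticFunction.abs_moebius_le_one (n := n)
        exact_mod_cast this
    _ = (⌊x⌋₊ : ℝ) := by simp
    _ ≤ x := Nat.floor_le hx

/-- The transform of the Mertens function. -/
theorem pf_ME : T_ME := by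
  intro s hs
  have hs0 : s ≠ 0 := by
    intro h
    rw [h] at hs
    simp at hs
    linarith
  constructor
  · -- integrability
    have hmeas : Measurable (fun v : ℝ => (M (Real.exp v) : ℂ) * cexp (-(s * v))) := by
      refine Measurable.mul ?_ ?_
      · exact Complex.measurable_ofReal.comp (measurable_M.comp Real.measurable_exp)
      · fun_prop
    have hint : IntegrableOn (fun v : ℝ => Real.exp (-(s.re - 1) * v)) (Set.Ioi 0) := by
      have := integrableOn_exp_mul_Ioi (a := -(s.re - 1)) (by linarith) 0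
      exact this
    refine Integrable.mono' hint hmeas.aestronglyMeasurable ?_
    refine Filter.Eventually.of_forall fun v => ?_
    rw [norm_mul, Complex.norm_exp, Complex.norm_real, Real.norm_eq_abs]
    have h1 : (-(s * (v : ℂ))).re = -(s.re * v) := by simp
    rw [h1]
    calc |M (Real.exp v)| * Real.exp (-(s.re * v))
        ≤ Real.exp v * Real.exp (-(s.re * v)) :=
          mul_le_mul_of_nonneg_right (abs_M_le _ (Real.exp_pos v).le) (Real.exp_pos _).le
      _ = Real.exp (-(s.re - 1) * v) := by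
          rw [← Real.exp_add]
          congr 1
          ring
  · -- the value
    have hL := LSeries_eq_mul_integral (fun n => ((ArithmeticFunction.moebius n : ℤ) : ℂ))
      (r := 1) zero_le_one hs (ArithmeticFunction.LSeriesSummable_moebius_iff.2 hs) (by
        refine Asymptotics.IsBigO.of_bound 1 (Filter.Eventually.of_forall fun n => ?_)
        rw [Real.rpow_one, one_mul, Real.norm_natCast]
        calc ‖∑ k ∈ Finset.Icc 1 n, ((ArithmeticFunction.moebius k : ℤ) : ℂ)‖
            ≤ ∑ k ∈ Finset.Icc 1 n, ‖((ArithmeticFunction.moebius k : ℤ) : ℂ)‖ :=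
              norm_sum_le _ _
          _ ≤ ∑ _k ∈ Finset.Icc 1 n, (1 : ℝ) := by
              refine Finset.sum_le_sum fun k _ => ?_
              rw [Complex.norm_intCast]
              have := ArithmeticFunction.abs_moebius_le_one (n := k)
              exact_mod_cast this
          _ = (n : ℝ) := by simp)
    have hz : riemannZeta s * LSeries (fun n => ((ArithmeticFunction.moebius n : ℤ) : ℂ)) s = 1 := by
      rw [← LSeries_one_eq_riemannZeta hs]
      exact LSeries_one_mul_Lseries_moebius hs
    have hz0 : riemannZeta s ≠ 0 := riemannZeta_ne_zero_of_one_lt_re hs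
    have hsub := integral_comp_exp_Ioi (fun y : ℝ => (M y : ℂ) * (y : ℂ) ^ (-(s + 1))) 0
    rw [Real.exp_zero] at hsub
    have h1 : ∫ v in Set.Ioi (0 : ℝ), (M (Real.exp v) : ℂ) * cexp (-(s * v)) =
        ∫ x in Set.Ioi (0 : ℝ), Real.exp x • ((M (Real.exp x) : ℂ) *
          ((Real.exp x : ℝ) : ℂ) ^ (-(s + 1))) := by
      refine setIntegral_congr_fun measurableSet_Ioi fun v _ => ?_
      change (M (Real.exp v) : ℂ) * cexp (-(s * v)) = Real.exp v • ((M (Real.exp v) : ℂ) *
          ((Real.exp v : ℝ) : ℂ) ^ (-(s + 1)))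
      have hp : ((Real.exp v : ℝ) : ℂ) ^ (-(s + 1)) = cexp (v * (-(s + 1))) := by
        rw [Complex.cpow_def_of_ne_zero (by exact_mod_cast (Real.exp_pos v).ne'),
          ← Complex.ofReal_log (Real.exp_pos v).le, Real.log_exp]
      rw [hp, Complex.real_smul, Complex.ofReal_exp, mul_left_comm, ← Complex.exp_add]
      congr 2
      ring
    rw [h1, hsub]
    have h2 : ∫ y in Set.Ioi (1 : ℝ), (M y : ℂ) * (y : ℂ) ^ (-(s + 1)) =
        ∫ t in Set.Ioi (1 : ℝ), (∑ k ∈ Finset.Icc 1 ⌊t⌋₊,
          ((ArithmeticFunction.moebius k : ℤ) : ℂ)) * (t : ℂ) ^ (-(s + 1)) := by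
      refine setIntegral_congr_fun measurableSet_Ioi fun t _ => ?_
      change (M t : ℂ) * (t : ℂ) ^ (-(s + 1)) = _
      unfold M
      push_cast
      rfl
    rw [h2]
    rw [hL] at hz
    field_simp
    linear_combination hz

end Pool.Agent.H41.MF
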